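import Mathlib
import Pool.Agent.H724R3.N.Stmts
import Pool.Agent.Helper529.HJ.FolB

set_option autoImplicit false

/-! Følner sets along an ultrafilter. -/

namespace Pool.Agent.Y464.AG

open Filter Topology Classical

theorem isFol_of_fol {G : Type} [Group G] (h : HJI.Fol.Fol G) :
    ∃ (J : Type) (U : Ultrafilter J) (F : J → Finset G), Pool.Agent.H724R3.N.IsFol U F := by
  have h' : ∀ j : Finset G × ℕ, ∃ T : Finset G, T.Nonempty ∧
      ∀ s ∈ j.1, ((T.filter (fun t => s * t ∉ T)).card : ℝ) ≤ (1 / ((j.2 : ℝ) + 1)) * T.card :=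
    fun j => h j.1 (1 / ((j.2 : ℝ) + 1)) (by positivity)
  choose F hF1 hF2 using h'
  refine ⟨Finset G × ℕ, Ultrafilter.of atTop, F, hF1, fun g => ?_⟩
  refine Tendsto.mono_left ?_ (Ultrafilter.of_le atTop)
  have hcard : ∀ j, (((F j).image (fun h => g * h)) \ F j).card = ((F j).filter (fun t => g * t ∉ F j)).card := by
    intro j
    have : ((F j).image (fun h => g * h)) \ F j = ((F j).filter (fun t => g * t ∉ F j)).image (fun h => g * h) := by
      ext x
      simp only [Finset.mem_sdiff, Finset.mem_image, Finset.mem_filter]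
      constructor
      · rintro ⟨⟨a, ha, rfl⟩, hx⟩
        exact ⟨a, ⟨ha, hx⟩, rfl⟩
      · rintro ⟨a, ⟨ha, hx⟩, rfl⟩
        exact ⟨⟨a, ha, rfl⟩, hx⟩
    rw [this, Finset.card_image_of_injective _ (mul_right_injective g)]
  have hlim : Tendsto (fun j : Finset G × ℕ => 1 / ((j.2 : ℝ) + 1)) atTop (𝓝 0) := by
    have h1 : Tendsto (fun j : Finset G × ℕ => j.2) atTop atTop := tendsto_snd.comp (by
      rw [← prod_atTop_atTop_eq]; exact tendsto_id) 
    exact tendsto_one_div_add_atTop_nhds_zero_nat.comp h1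
  refine squeeze_zero' (Eventually.of_forall fun j => by positivity) ?_ hlim
  filter_upwards [eventually_ge_atTop (({g}, 0) : Finset G × ℕ)] with j hj
  have hg : g ∈ j.1 := hj.1 (Finset.mem_singleton_self g)
  have hpos : (0 : ℝ) < (F j).card := by exact_mod_cast (hF1 j).card_pos
  rw [div_le_iff₀ hpos]
  have h3 := hF2 j g hg
  have h4 : ((((F j).image (fun h => g * h)) \ F j).card : ℝ) = (((F j).filter (fun t => g * t ∉ F j)).card : ℝ) := by
    exact_mod_cast hcard j
  refine le_trans (le_of_eq ?_) h3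
  convert h4 using 2

end Pool.Agent.Y464.AG
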