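import Mathlib
import Pool.Agent.H724R3.N.THSC

set_option autoImplicit false

/-! Hilbert-Schmidt operators commuting with a unitary representation without finite-dimensional invariant subspaces. -/

namespace Pool.Agent.Y464.AG

open Filter Topology

variable {H : Type} [NormedAddCommGroup H] [InnerProductSpace ℂ H] [CompleteSpace H]

/-- Hilbert-Schmidt operators are compact. -/
theorem compact_of_hs {ι : Type} (b : HilbertBasis ι ℂ H) (T : H →L[ℂ] H)
    (hT : Summable (fun k => ‖T (b k)‖ ^ 2)) : IsCompactOperator T := by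
  classical
  have hcl : IsClosed {f : H →L[ℂ] H | IsCompactOperator f} :=
    isClosed_setOfPred_isCompactOperator (σ₁₂ := RingHom.id ℂ) (M₁ := H) (M₂ := H)
  have hmem : T ∈ closure {f : H →L[ℂ] H | IsCompactOperator f} := by
    rw [Metric.mem_closure_iff]
    intro ε hε
    obtain ⟨F, hF⟩ := summable_iff_vanishing_norm.mp hT ((ε / 2) ^ 2) (by positivity)
    obtain ⟨TF, hTF⟩ : ∃ TF : H →L[ℂ] H, TF = ∑ k ∈ F, (innerSL ℂ (b k)).smulRight (T (b k)) := ⟨_, rfl⟩
    refine ⟨TF, ?_, ?_⟩
    · rw [hTF]
      show IsCompactOperator (∑ k ∈ F, (innerSL ℂ (b k)).smulRight (T (b k)) : H →L[ℂ] H)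
      have hsub : ∀ S : Finset ι, IsCompactOperator (∑ k ∈ S, (innerSL ℂ (b k)).smulRight (T (b k)) : H →L[ℂ] H) := by
        intro S
        induction S using Finset.induction_on with
        | empty => rw [Finset.sum_empty]; exact isCompactOperator_zero
        | insert k S hk ih =>
          rw [Finset.sum_insert hk]
          refine IsCompactOperator.add ?_ ih
          have h1 : IsCompactOperator (innerSL ℂ (b k) : H →L[ℂ] ℂ) :=
            isCompactOperator_of_locallyCompactSpace_dom _
          exact h1.clm_comp (ContinuousLinearMap.toSpanSingleton ℂ (T (b k)))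
      exact hsub F
    · have hval : ∀ k, TF (b k) = if k ∈ F then T (b k) else 0 := by
        intro k
        rw [hTF]
        simp only [_root_.sum_apply, ContinuousLinearMap.smulRight_apply, innerSL_apply_apply]
        have : ∀ j ∈ F, inner ℂ (b j) (b k) • T (b j) = if j = k then T (b k) else 0 := by
          intro j _
          rw [(orthonormal_iff_ite.1 b.orthonormal) j k]
          by_cases h : j = k
          · rw [if_pos h, if_pos h, h, one_smul]
          · rw [if_neg h, if_neg h, zero_smul]
        rw [Finset.sum_congr rfl this, Finset.sum_ite_eq']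
      have hbound : ∀ y, ‖(T - TF) y‖ ≤ (ε / 2) * ‖y‖ := by
        intro y
        have h := Pool.Agent.H724R3.N.HSC_bound b (T - TF) ∅ (ε / 2) (by positivity) (by
          intro t _
          have h1 : ∑ k ∈ t, ‖(T - TF) (b k)‖ ^ 2 = ∑ k ∈ t \ F, ‖T (b k)‖ ^ 2 := by
            rw [← Finset.sum_sdiff (s₁ := t ∩ F) (s₂ := t) Finset.inter_subset_left]
            have h2 : ∑ k ∈ t ∩ F, ‖(T - TF) (b k)‖ ^ 2 = 0 := by
              apply Finset.sum_eq_zero
              intro k hk
              have hkF := (Finset.mem_inter.1 hk).2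
              show ‖T (b k) - TF (b k)‖ ^ 2 = 0
              rw [hval, if_pos hkF, sub_self, norm_zero]
              norm_num
            rw [h2, add_zero, Finset.sdiff_inter_self_left]
            apply Finset.sum_congr rfl
            intro k hk
            have hkF := (Finset.mem_sdiff.1 hk).2
            show ‖T (b k) - TF (b k)‖ ^ 2 = _
            rw [hval, if_neg hkF, sub_zero]
          rw [h1]
          exact (le_abs_self _).trans (hF (t \ F) Finset.sdiff_disjoint).le) y
        rw [Finset.sum_empty, zero_add] at h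
        rw [mul_comm]
        exact h
      rw [dist_eq_norm]
      exact lt_of_le_of_lt (ContinuousLinearMap.opNorm_le_bound _ (by positivity) hbound) (by linarith)
  rw [hcl.closure_eq] at hmem
  exact hmem

/-- A Hilbert-Schmidt operator commuting with a unitary representation without nonzero finite-dimensional invariant
subspaces is zero. -/
theorem hs_zero {ι : Type} (b : HilbertBasis ι ℂ H) {G : Type} [Group G] (V : G → H →L[ℂ] H)
    (hs : ∀ g, star (V g) = V g⁻¹)
    (hW : ∀ W : Submodule ℂ H, FiniteDimensional ℂ W → (∀ g, ∀ x ∈ W, V g x ∈ W) → W = ⊥)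
    (T : H →L[ℂ] H) (hT : Summable (fun k => ‖T (b k)‖ ^ 2)) (hc : ∀ g, V g * T = T * V g) : T = 0 := by
  by_contra hT0
  have hcomp := compact_of_hs b T hT
  obtain ⟨S, hS⟩ : ∃ S : H →L[ℂ] H, S = star T * T := ⟨_, rfl⟩
  have hSa : IsSelfAdjoint S := by rw [hS]; exact IsSelfAdjoint.star_mul_self T
  have hS0 : S ≠ 0 := by
    intro h
    rw [hS] at h
    exact hT0 ((CStarRing.star_mul_self_eq_zero_iff T).1 h)
  have hSc : IsCompactOperator S := by rw [hS]; exact hcomp.clm_comp (star T)
  have hcs : ∀ g, V g * star T = star T * V g := by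
    intro g
    have h1 := congrArg star (hc g⁻¹)
    rw [star_mul, star_mul, hs, inv_inv] at h1
    exact h1.symm
  have hcomm : ∀ g, V g * S = S * V g := by
    intro g
    rw [hS, ← mul_assoc, hcs, mul_assoc, hc, mul_assoc]
  have hnt : Nontrivial (H →L[ℂ] H) := ⟨⟨S, 0, hS0⟩⟩
  obtain ⟨μ, hμ1, hμ2⟩ := spectrum.exists_nnnorm_eq_spectralRadius S
  rw [hSa.spectralRadius_eq_nnnorm] at hμ2
  have hμ0 : μ ≠ 0 := by
    rintro rfl
    have h1 : (‖S‖₊ : ENNReal) = 0 := by rw [← hμ2]; simp
    rw [ENNReal.coe_eq_zero, nnnorm_eq_zero] at h1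
    exact hS0 h1
  have hev := (hSc.hasEigenvalue_iff_mem_spectrum hμ0).2 hμ1
  obtain ⟨W, hWdef⟩ : ∃ W : Submodule ℂ H, W = Module.End.eigenspace (S : Module.End ℂ H) μ := ⟨_, rfl⟩
  have hWm : ∀ x, x ∈ W ↔ S x = μ • x := by
    intro x
    rw [hWdef, Module.End.mem_eigenspace_iff]
    rfl
  have hWcl : IsClosed (W : Set H) := by
    have : (W : Set H) = {x | S x = μ • x} := by
      ext x
      exact hWm x
    rw [this]
    exact isClosed_eq S.continuous (continuous_const_smul μ)
  have hWfd : FiniteDimensional ℂ W := by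
    have hinv : ∀ v ∈ W, (S : H →ₗ[ℂ] H) v ∈ W := by
      intro v hv
      have : (S : H →ₗ[ℂ] H) v = μ • v := (hWm v).1 hv
      rw [this]
      exact W.smul_mem _ hv
    have h1 : IsCompactOperator ((S : H →ₗ[ℂ] H).restrict hinv) := IsCompactOperator.restrict hSc hinv hWcl
    have h2 := h1.smul μ⁻¹
    have h3 : (μ⁻¹ • ⇑((S : H →ₗ[ℂ] H).restrict hinv) : W → W) = id := by
      funext x
      apply Subtype.ext
      show μ⁻¹ • (S x : H) = x
      rw [(hWm x).1 x.2, smul_smul, inv_mul_cancel₀ hμ0, one_smul]
    rw [h3] at h2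
    haveI : CompleteSpace W := hWcl.completeSpace_coe
    exact FiniteDimensional.of_isCompactOperator_id h2
  have hbot := hW W hWfd (by
    intro g x hx
    rw [hWm] at hx ⊢
    have h1 := congrArg (fun R : H →L[ℂ] H => R x) (hcomm g)
    have h2 : V g (S x) = S (V g x) := h1
    rw [← h2, hx, map_smul])
  rw [hWdef] at hbot
  exact hev hbot

end Pool.Agent.Y464.AG
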