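import Mathlib
import Pool.Agent.Helper133.CD.J6a
import Pool.Agent.Helper529.HJ.FolB

set_option autoImplicit false

/-! Representations of C*-algebras, finite-dimensional representations of group algebras, solvable groups. -/

namespace Pool.Agent.Y464.AG

open Filter Topology
open scoped ComplexOrder

/-- **GNS.** -/
theorem gns (A : Type) [CStarAlgebra A] [PartialOrder A] [StarOrderedRing A] (f : A →ₚ[ℂ] ℂ) (hf : f 1 = 1) :
    ∃ (K : Type) (_ : NormedAddCommGroup K) (_ : InnerProductSpace ℂ K) (_ : CompleteSpace K)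
      (π : A →⋆ₐ[ℂ] (K →L[ℂ] K)) (e : A → K), Nontrivial K ∧ DenseRange e ∧ (∀ a b, π a (e b) = e (a * b)) ∧
        ∀ a b, inner ℂ (e a) (e b) = f (star a * b) := by
  have hin : ∀ a b : A, inner ℂ (f.toPreGNS a : f.GNS) (f.toPreGNS b : f.GNS) = f (star a * b) := by
    intro a b
    rw [UniformSpace.Completion.inner_coe, PositiveLinearMap.preGNS_inner_def]
    rfl
  refine ⟨f.GNS, inferInstance, inferInstance, inferInstance, f.gnsStarAlgHom, fun a => (f.toPreGNS a : f.GNS),
    ?_, ?_, ?_, hin⟩
  · refine ⟨⟨(f.toPreGNS 1 : f.GNS), 0, fun h => ?_⟩⟩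
    have h1 := hin 1 1
    rw [h, inner_zero_left, star_one, one_mul, hf] at h1
    exact zero_ne_one h1
  · have h1 : DenseRange (fun x : f.PreGNS => (x : f.GNS)) := UniformSpace.Completion.denseRange_coe
    exact h1
  · intro a b
    show f.gnsNonUnitalStarAlgHom a (f.toPreGNS b : f.GNS) = _
    rw [PositiveLinearMap.gnsNonUnitalStarAlgHom_apply_coe]
    rfl

/-- A nontrivial unital C*-algebra has a unital representation on a nonzero Hilbert space. -/
theorem exists_rep (A : Type) [CStarAlgebra A] [Nontrivial A] :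
    ∃ (K : Type) (_ : NormedAddCommGroup K) (_ : InnerProductSpace ℂ K) (_ : CompleteSpace K)
      (_ : A →⋆ₐ[ℂ] (K →L[ℂ] K)), Nontrivial K := by
  let _ := CStarAlgebra.spectralOrder A
  have _ := CStarAlgebra.spectralOrderedRing A
  obtain ⟨f, hf⟩ := Pool.Agent.Helper133.CD.J6a.CDst.exists_state (1 : A) zero_le_one
  rw [norm_one, Complex.ofReal_one] at hf
  obtain ⟨K, i1, i2, i3, π, e, h1, -⟩ := gns A f hf
  exact ⟨K, i1, i2, i3, π, h1⟩

/-- A finite-dimensional subspace invariant under the representation of a set gives a finite-dimensional representation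
of the algebra generated by the set. -/
theorem rep_of_invariant {A K : Type} [CStarAlgebra A] [NormedAddCommGroup K] [InnerProductSpace ℂ K] [CompleteSpace K]
    (π : A →⋆ₐ[ℂ] (K →L[ℂ] K)) (S : Set A) (W : Submodule ℂ K) [FiniteDimensional ℂ W] (hW : W ≠ ⊥)
    (hS : ∀ s ∈ S, ∀ x ∈ W, π s x ∈ W) :
    ∃ d : ℕ, 0 < d ∧ Nonempty (Algebra.adjoin ℂ S →ₐ[ℂ] Matrix (Fin d) (Fin d) ℂ) := by
  have hinv : ∀ a ∈ Algebra.adjoin ℂ S, ∀ x ∈ W, π a x ∈ W := by
    intro a ha
    induction ha using Algebra.adjoin_induction with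
    | mem s hs => exact hS s hs
    | algebraMap r =>
      intro x hx
      rw [AlgHomClass.commutes]
      show (algebraMap ℂ (K →L[ℂ] K) r) x ∈ W
      rw [Algebra.algebraMap_eq_smul_one]
      exact W.smul_mem r hx
    | add a b _ _ h1 h2 =>
      intro x hx
      rw [map_add]
      exact W.add_mem (h1 x hx) (h2 x hx)
    | mul a b _ _ h1 h2 =>
      intro x hx
      rw [map_mul]
      exact h1 _ (h2 x hx)
  have hpos : 0 < Module.finrank ℂ W := by
    rw [Module.finrank_pos_iff]
    exact Submodule.nontrivial_iff_ne_bot.2 hW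
  let ρ : Algebra.adjoin ℂ S →ₐ[ℂ] Module.End ℂ W :=
    { toFun := fun a => ((π (a : A) : K →L[ℂ] K) : K →ₗ[ℂ] K).restrict (hinv a a.2)
      map_one' := by
        ext x
        show π ((1 : Algebra.adjoin ℂ S) : A) (x : K) = x
        rw [OneMemClass.coe_one, map_one]
        rfl
      map_mul' := fun a b => by
        ext x
        show π ((a * b : Algebra.adjoin ℂ S) : A) (x : K) = π (a : A) (π (b : A) (x : K))
        rw [MulMemClass.coe_mul, map_mul]
        rfl
      map_zero' := by
        ext x
        show π ((0 : Algebra.adjoin ℂ S) : A) (x : K) = 0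
        rw [ZeroMemClass.coe_zero, map_zero]
        rfl
      map_add' := fun a b => by
        ext x
        show π ((a + b : Algebra.adjoin ℂ S) : A) (x : K) = π (a : A) (x : K) + π (b : A) (x : K)
        rw [AddMemClass.coe_add, map_add]
        rfl
      commutes' := fun r => by
        ext x
        show π ((algebraMap ℂ (Algebra.adjoin ℂ S) r : Algebra.adjoin ℂ S) : A) (x : K) = r • (x : K)
        rw [Subalgebra.coe_algebraMap, AlgHomClass.commutes, Algebra.algebraMap_eq_smul_one]
        rfl }
  exact ⟨Module.finrank ℂ W, hpos,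
    ⟨(LinearMap.toMatrixAlgEquiv (Module.finBasis ℂ W)).toAlgHom.comp ρ⟩⟩

/-- A subgroup generated by elements with central commutators satisfies Følner's condition. -/
theorem fol_closure {M : Type} [Group M] (S : Set M)
    (h : ∀ x ∈ S, ∀ y ∈ S, x * y * x⁻¹ * y⁻¹ ∈ Subgroup.center M) : HJI.Fol.Fol (Subgroup.closure S) := by
  set q : M →* M ⧸ Subgroup.center M := QuotientGroup.mk' (Subgroup.center M) with hq
  have hgen : ∀ x ∈ S, ∀ y ∈ S, q x * q y = q y * q x := by
    intro x hx y hy
    have h1 : q (x * y * x⁻¹ * y⁻¹) = 1 := by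
      rw [hq, QuotientGroup.mk'_apply, QuotientGroup.eq_one_iff]
      exact h x hx y hy
    rw [map_mul, map_mul, map_mul, map_inv, map_inv, mul_inv_eq_one, mul_inv_eq_iff_eq_mul] at h1
    exact h1
  have hstep : ∀ y ∈ S, ∀ x ∈ Subgroup.closure S, q x * q y = q y * q x := by
    intro y hy x hx
    have h1 : Subgroup.closure S ≤ (Subgroup.centralizer {q y}).comap q := by
      rw [Subgroup.closure_le]
      intro z hz
      show q z ∈ Subgroup.centralizer {q y}
      rw [Subgroup.mem_centralizer_singleton_iff]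
      exact hgen z hz y hy
    have h2 := h1 hx
    rw [Subgroup.mem_comap, Subgroup.mem_centralizer_singleton_iff] at h2
    exact h2
  have hall : ∀ x ∈ Subgroup.closure S, ∀ y ∈ Subgroup.closure S, q x * q y = q y * q x := by
    intro x hx y hy
    have h1 : Subgroup.closure S ≤ (Subgroup.centralizer {q x}).comap q := by
      rw [Subgroup.closure_le]
      intro z hz
      show q z ∈ Subgroup.centralizer {q x}
      rw [Subgroup.mem_centralizer_singleton_iff]
      exact (hstep z hz x hx).symm
    have h2 := h1 hy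
    rw [Subgroup.mem_comap, Subgroup.mem_centralizer_singleton_iff] at h2
    exact h2.symm
  let f : Subgroup.closure S →* M ⧸ Subgroup.center M := q.comp (Subgroup.closure S).subtype
  refine HJI.Fol.fol_ext f.rangeRestrict (HJI.Fol.fol_comm ?_) (HJI.Fol.fol_comm ?_)
  · rintro ⟨⟨x, hx⟩, hx'⟩ ⟨⟨y, hy⟩, hy'⟩
    have h1 : x ∈ Subgroup.center M := by
      have h2 : f ⟨x, hx⟩ = 1 := by
        have := MonoidHom.mem_ker.1 hx'
        exact congrArg Subtype.val this
      have h3 : q x = 1 := h2
      rwa [hq, QuotientGroup.mk'_apply, QuotientGroup.eq_one_iff] at h3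
    apply Subtype.ext
    apply Subtype.ext
    show x * y = y * x
    exact (Subgroup.mem_center_iff.1 h1 y).symm
  · rintro ⟨_, ⟨x, rfl⟩⟩ ⟨_, ⟨y, rfl⟩⟩
    apply Subtype.ext
    show q x * q y = q y * q x
    exact hall x x.2 y y.2

end Pool.Agent.Y464.AG
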