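import Mathlib
import Pool.Agent.Y464.AG.Rep

set_option autoImplicit false

/-! Pairs of unitaries commuting up to scalars. -/

namespace Pool.Agent.Y464.AG

open Filter Topology

lemma no_pairs (d : ℕ) (hd : 0 < d) (a b : ℕ → Module.End ℂ (Fin d → ℂ)) (z : ℕ → ℂ) (hz : ∀ k, z k ≠ 1)
    (ha : ∀ k, Function.Injective (a k)) (hb : ∀ k, Function.Injective (b k))
    (h : ∀ k, a k * b k = z k • (b k * a k)) (haa : ∀ j k, j ≠ k → a j * a k = a k * a j)
    (hab : ∀ j k, j ≠ k → a j * b k = b k * a j) : False := by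
  haveI : Nonempty (Fin d) := ⟨⟨0, hd⟩⟩
  have key : ∀ k : ℕ, ∃ W : Submodule ℂ (Fin d → ℂ), W ≠ ⊥ ∧
      (∀ j, k ≤ j → ∀ x ∈ W, a j x ∈ W ∧ b j x ∈ W) ∧ 2 ^ k * Module.finrank ℂ W ≤ d := by
    intro k
    induction k with
    | zero =>
      refine ⟨⊤, ?_, fun _ _ _ _ => ⟨trivial, trivial⟩, ?_⟩
      · exact top_ne_bot
      · rw [pow_zero, one_mul, finrank_top, Module.finrank_fin_fun]
    | succ k ih =>
      obtain ⟨W, hW, hinv, hdim⟩ := ih
      haveI : Nontrivial W := Submodule.nontrivial_iff_ne_bot.2 hW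
      obtain ⟨μ, hμ⟩ := Module.End.exists_eigenvalue ((a k).restrict (fun x hx => (hinv k le_rfl x hx).1) :
        Module.End ℂ W)
      obtain ⟨w, hw⟩ := hμ.exists_hasEigenvector
      have hw1 : a k (w : Fin d → ℂ) = μ • (w : Fin d → ℂ) := congrArg Subtype.val hw.apply_eq_smul
      have hw0 : (w : Fin d → ℂ) ≠ 0 := fun h0 => hw.2 (Subtype.ext h0)
      have hμ0 : μ ≠ 0 := by
        rintro rfl
        rw [zero_smul] at hw1
        exact hw0 (ha k (by rw [hw1, map_zero]))
      obtain ⟨W', hW'⟩ : ∃ W' : Submodule ℂ (Fin d → ℂ), W' = W ⊓ Module.End.eigenspace (a k) μ := ⟨_, rfl⟩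
      have hmem : ∀ x, x ∈ W' ↔ x ∈ W ∧ a k x = μ • x := by
        intro x
        rw [hW', Submodule.mem_inf, Module.End.mem_eigenspace_iff]
      obtain ⟨W2, hW2⟩ : ∃ W2 : Submodule ℂ (Fin d → ℂ), W2 = W'.map (b k) := ⟨_, rfl⟩
      refine ⟨W', ?_, ?_, ?_⟩
      · intro h0
        have : (w : Fin d → ℂ) ∈ W' := (hmem _).2 ⟨w.2, hw1⟩
        rw [h0, Submodule.mem_bot] at this
        exact hw0 this
      · intro j hj x hx
        obtain ⟨hx1, hx2⟩ := (hmem x).1 hx
        have hne : k ≠ j := by omega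
        obtain ⟨g1, g2⟩ := hinv j (by omega) x hx1
        refine ⟨(hmem _).2 ⟨g1, ?_⟩, (hmem _).2 ⟨g2, ?_⟩⟩
        · have := LinearMap.congr_fun (haa k j hne) x
          rw [Module.End.mul_apply, Module.End.mul_apply, hx2, map_smul] at this
          exact this
        · have := LinearMap.congr_fun (hab k j hne) x
          rw [Module.End.mul_apply, Module.End.mul_apply, hx2, map_smul] at this
          exact this
      · have h1 : W' ≤ W := by rw [hW']; exact inf_le_left
        have h2 : W2 ≤ W := by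
          rw [hW2, Submodule.map_le_iff_le_comap]
          intro x hx
          exact (hinv k le_rfl x ((hmem x).1 hx).1).2
        have h3 : W' ⊓ W2 = ⊥ := by
          rw [eq_bot_iff]
          intro x hx
          obtain ⟨hx1, hx2⟩ := Submodule.mem_inf.1 hx
          rw [hW2, Submodule.mem_map] at hx2
          obtain ⟨y, hy, rfl⟩ := hx2
          have e1 := ((hmem _).1 hx1).2
          have e2 := LinearMap.congr_fun (h k) y
          rw [Module.End.mul_apply, LinearMap.smul_apply, Module.End.mul_apply, ((hmem y).1 hy).2, map_smul, e1,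
            smul_smul] at e2
          have e3 : (μ - z k * μ) • (b k) y = 0 := by rw [sub_smul, e2, sub_self]
          rcases smul_eq_zero.1 e3 with h4 | h4
          · exfalso
            have h5 : μ * (1 - z k) = 0 := by rw [← h4]; ring
            rcases mul_eq_zero.1 h5 with h6 | h6
            · exact hμ0 h6
            · exact hz k (sub_eq_zero.1 h6).symm
          · rw [h4]; exact Submodule.zero_mem _
        have h4 : Module.finrank ℂ W2 = Module.finrank ℂ W' := by
          rw [hW2]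
          exact (LinearEquiv.finrank_eq (Submodule.equivMapOfInjective (b k) (hb k) W')).symm
        have h5 := Submodule.finrank_sup_add_finrank_inf_eq W' W2
        have h6 : Module.finrank ℂ (W' ⊔ W2 : Submodule ℂ (Fin d → ℂ)) ≤ Module.finrank ℂ W :=
          Submodule.finrank_mono (sup_le h1 h2)
        rw [h3, finrank_bot, h4] at h5
        calc 2 ^ (k + 1) * Module.finrank ℂ W' = 2 ^ k * (2 * Module.finrank ℂ W') := by ring
          _ ≤ 2 ^ k * Module.finrank ℂ W := Nat.mul_le_mul_left _ (by omega)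
          _ ≤ d := hdim
  obtain ⟨W, hW, -, hdim⟩ := key d
  have hpos : 0 < Module.finrank ℂ W := by
    haveI : Nontrivial W := Submodule.nontrivial_iff_ne_bot.2 hW
    exact Module.finrank_pos
  have h1 : d < 2 ^ d := Nat.lt_two_pow_self
  have h2 : 2 ^ d * 1 ≤ 2 ^ d * Module.finrank ℂ W := Nat.mul_le_mul_left _ hpos
  omega

variable {A : Type} [CStarAlgebra A]

lemma comm_central (x y : unitary A) (t : ℂ) (h : (x : A) * y = t • ((y : A) * x)) :
    x * y * x⁻¹ * y⁻¹ ∈ Subgroup.center (unitary A) := by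
  have h1 : ((x * y * x⁻¹ * y⁻¹ : unitary A) : A) = t • 1 := by
    have e1 : x * y * x⁻¹ * y⁻¹ = (x * y) * (x⁻¹ * y⁻¹) := by group
    have e2 : (y * x) * (x⁻¹ * y⁻¹) = (1 : unitary A) := by group
    have e3 := congrArg (fun w : unitary A => (w : A)) e2
    simp only [Submonoid.coe_mul, OneMemClass.coe_one] at e3
    rw [e1]
    simp only [Submonoid.coe_mul]
    rw [h, smul_mul_assoc, e3]
  rw [Subgroup.mem_center_iff]
  intro w
  apply Subtype.ext
  show (w : A) * ((x * y * x⁻¹ * y⁻¹ : unitary A) : A) = ((x * y * x⁻¹ * y⁻¹ : unitary A) : A) * (w : A)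
  rw [h1, mul_smul_comm, smul_mul_assoc, one_mul, mul_one]

lemma fol_scalar (S : Set (unitary A)) (h : ∀ x ∈ S, ∀ y ∈ S, ∃ t : ℂ, (x : A) * y = t • ((y : A) * x)) :
    HJI.Fol.Fol (Subgroup.closure S) := by
  refine fol_closure S fun x hx y hy => ?_
  obtain ⟨t, ht⟩ := h x hx y hy
  exact comm_central x y t ht

/-- the set of the elements of a subgroup of the unitary group -/
def elts (P : Subgroup (unitary A)) : Set A := Set.range (fun g : P => ((g : unitary A) : A))

lemma mem_elts {P : Subgroup (unitary A)} {x : unitary A} (hx : x ∈ P) : (x : A) ∈ Algebra.adjoin ℂ (elts P) :=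
  Algebra.subset_adjoin ⟨⟨x, hx⟩, rfl⟩

/-- no finite-dimensional representation: one pair with a scalar that is not a root of unity -/
theorem nfd_rotation (u v : unitary A) (z : ℂ) (hz : ∀ n : ℕ, 0 < n → z ^ n ≠ 1)
    (h : (u : A) * v = z • ((v : A) * u)) (P : Subgroup (unitary A)) (hu : u ∈ P) (hv : v ∈ P) (d : ℕ) (hd : 0 < d) :
    IsEmpty (Algebra.adjoin ℂ (elts P) →ₐ[ℂ] Matrix (Fin d) (Fin d) ℂ) := by
  refine ⟨fun ρ => ?_⟩
  let R : ∀ x : unitary A, x ∈ P → Matrix (Fin d) (Fin d) ℂ := fun x hx => ρ ⟨(x : A), mem_elts hx⟩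
  have hdet : ∀ (x : unitary A) (hx : x ∈ P), (R x hx).det ≠ 0 := by
    intro x hx h0
    have h1 : R x hx * R x⁻¹ (P.inv_mem hx) = 1 := by
      show ρ _ * ρ _ = 1
      rw [← map_mul, ← map_one ρ]
      congr 1
      apply Subtype.ext
      show (x : A) * ((x⁻¹ : unitary A) : A) = 1
      rw [← Submonoid.coe_mul, mul_inv_cancel, OneMemClass.coe_one]
    have h2 := congrArg Matrix.det h1
    rw [Matrix.det_mul, h0, zero_mul, Matrix.det_one] at h2
    exact zero_ne_one h2
  have h1 : R u hu * R v hv = z • (R v hv * R u hu) := by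
    show ρ _ * ρ _ = z • (ρ _ * ρ _)
    rw [← map_mul, ← map_mul, ← map_smul]
    congr 1
    exact Subtype.ext h
  have h2 := congrArg Matrix.det h1
  rw [Matrix.det_mul, Matrix.det_smul, Matrix.det_mul, Fintype.card_fin] at h2
  have h3 : (R u hu).det * (R v hv).det * (1 - z ^ d) = 0 := by
    linear_combination h2
  rcases mul_eq_zero.1 h3 with h4 | h4
  · exact mul_ne_zero (hdet u hu) (hdet v hv) h4
  · exact hz d hd (sub_eq_zero.1 h4).symm

/-- no finite-dimensional representation: infinitely many commuting pairs -/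
theorem nfd_pairs (u v : ℕ → unitary A) (z : ℕ → ℂ) (hz : ∀ k, z k ≠ 1)
    (h : ∀ k, (u k : A) * v k = z k • ((v k : A) * u k)) (huu : ∀ j k, j ≠ k → u j * u k = u k * u j)
    (huv : ∀ j k, j ≠ k → u j * v k = v k * u j)
    (P : Subgroup (unitary A)) (hu : ∀ k, u k ∈ P) (hv : ∀ k, v k ∈ P) (d : ℕ) (hd : 0 < d) :
    IsEmpty (Algebra.adjoin ℂ (elts P) →ₐ[ℂ] Matrix (Fin d) (Fin d) ℂ) := by
  refine ⟨fun ρ => ?_⟩
  let R : ∀ x : unitary A, x ∈ P → Module.End ℂ (Fin d → ℂ) :=
    fun x hx => Matrix.toLinAlgEquiv' (ρ ⟨(x : A), mem_elts hx⟩)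
  have hinj : ∀ (x : unitary A) (hx : x ∈ P), Function.Injective (R x hx) := by
    intro x hx
    have h1 : R x⁻¹ (P.inv_mem hx) * R x hx = 1 := by
      show Matrix.toLinAlgEquiv' (ρ _) * Matrix.toLinAlgEquiv' (ρ _) = 1
      rw [← map_mul, ← map_mul, ← map_one Matrix.toLinAlgEquiv', ← map_one ρ]
      congr 2
      apply Subtype.ext
      show ((x⁻¹ : unitary A) : A) * (x : A) = 1
      rw [← Submonoid.coe_mul, inv_mul_cancel, OneMemClass.coe_one]
    intro a b hab
    have h2 : ∀ w, R x⁻¹ (P.inv_mem hx) (R x hx w) = w := fun w => by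
      have := LinearMap.congr_fun h1 w
      rw [Module.End.mul_apply] at this
      exact this
    rw [← h2 a, ← h2 b, hab]
  have hcomm : ∀ (x y : unitary A) (hx : x ∈ P) (hy : y ∈ P), x * y = y * x →
      R x hx * R y hy = R y hy * R x hx := by
    intro x y hx hy hxy
    show Matrix.toLinAlgEquiv' (ρ _) * Matrix.toLinAlgEquiv' (ρ _) =
      Matrix.toLinAlgEquiv' (ρ _) * Matrix.toLinAlgEquiv' (ρ _)
    rw [← map_mul, ← map_mul, ← map_mul, ← map_mul]
    congr 2
    apply Subtype.ext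
    show (x : A) * (y : A) = (y : A) * (x : A)
    rw [← Submonoid.coe_mul, ← Submonoid.coe_mul, hxy]
  refine no_pairs d hd (fun k => R (u k) (hu k)) (fun k => R (v k) (hv k)) z hz
    (fun k => hinj (u k) (hu k)) (fun k => hinj (v k) (hv k)) (fun k => ?_) (fun j k hjk => hcomm _ _ (hu j) (hu k) (huu j k hjk))
    (fun j k hjk => hcomm _ _ (hu j) (hv k) (huv j k hjk))
  show Matrix.toLinAlgEquiv' (ρ _) * Matrix.toLinAlgEquiv' (ρ _) =
      z k • (Matrix.toLinAlgEquiv' (ρ _) * Matrix.toLinAlgEquiv' (ρ _))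
  rw [← map_mul, ← map_mul, ← map_mul, ← map_mul, ← map_smul, ← map_smul]
  congr 2
  exact Subtype.ext (h k)

end Pool.Agent.Y464.AG
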