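import Mathlib
import Pool.Agent.Helper832.GDStmt
import Pool.Agent.Helper832.GDV
import Pool.Agent.Helper832.GDU
import Pool.Agent.H724R3.N.Main3
import Pool.Agent.H724R3.N.TFinal
import Pool.Agent.H724R3.N.TPermF
import Pool.Agent.H724R3.N.TPermR
import Pool.Agent.H724R3.N.TOper
import Pool.Agent.Y464.AG.HS
import Pool.Agent.Y464.AG.FolL
import Pool.Agent.Y464.AG.Pairs

set_option autoImplicit false

/-! Banach algebras containing an amenable group without finite-dimensional subrepresentations. -/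

namespace Pool.Agent.Y464.AG

open Filter Topology Pool.Agent.Helper832.GS Pool.Agent.H724R3.N

theorem dg_of_db {A : Type} [NonUnitalNormedRing A] [NormedSpace ℂ A] [IsScalarTower ℂ A A]
    [SMulCommClass ℂ A A] [CompleteSpace A] (h : db A = ⊤) : dg A = ⊤ ∧ db A = ⊤ := by
  refine ⟨?_, h⟩
  rw [← h]
  exact dg_eq_db fun _ _ _ _ _ _ _ _ l r h1 h2 h3 h4 h5 =>
    Pool.Agent.Helper832.RT.retract l r ⟨h1, h2, h3, h4, h5⟩

/-- **The criterion.** -/
theorem criterion (A : Type) [NonUnitalNormedRing A] [NormedSpace ℂ A] [IsScalarTower ℂ A A]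
    [SMulCommClass ℂ A A] [CompleteSpace A]
    (K : Type) [NormedAddCommGroup K] [InnerProductSpace ℂ K] [CompleteSpace K] [Nontrivial K]
    (π : A →L[ℂ] (K →L[ℂ] K)) (hπ : ∀ x y, π (x * y) = π x * π y)
    (G : Type) [Group G] (hG : HJI.Fol.Fol G) (a : G → A) (ha1 : a 1 = 0)
    (ham : ∀ g h, a (g * h) = a g + a h + a g * a h) (hab : ∃ C : ℝ, ∀ g, ‖a g‖ ≤ C)
    (has : ∀ g, star (π (a g)) = π (a g⁻¹))
    (hW : ∀ W : Submodule ℂ K, FiniteDimensional ℂ W → (∀ g, ∀ x ∈ W, π (a g) x ∈ W) → W = ⊥) :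
    dg A = ⊤ ∧ db A = ⊤ := by
  obtain ⟨w, b, -⟩ := exists_hilbertBasis ℂ K
  obtain ⟨J, U, F, hF⟩ := isFol_of_fol hG
  exact dg_of_db (mainStatement taskFinal A K w b π hπ G a ⟨ha1, ham, hab⟩ J U F hF
    (fun T hT hc => hs_zero b (fun g => π (a g)) has hW T hT hc))

/-- the closed algebras of operators containing the operators of finite rank -/
theorem oper (H : Type) [NormedAddCommGroup H] [InnerProductSpace ℂ H] [CompleteSpace H]
    (hH : ¬ FiniteDimensional ℂ H) (A : Type) [NonUnitalNormedRing A] [NormedSpace ℂ A]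
    [IsScalarTower ℂ A A] [SMulCommClass ℂ A A] [CompleteSpace A]
    (κ : A →L[ℂ] (H →L[ℂ] H)) (h1 : ∀ x, ‖κ x‖ = ‖x‖) (h2 : ∀ x y, κ (x * y) = κ x * κ y)
    (h3 : ∀ T : H →L[ℂ] H, FiniteDimensional ℂ (LinearMap.range T.toLinearMap) → ∃ x, κ x = T) :
    dg A = ⊤ ∧ db A = ⊤ :=
  dg_of_db (taskOper (mainStatement taskFinal) taskPermF taskPermR H hH A κ h1 h2 h3)

/-- unital C*-algebras containing an amenable group of unitaries which generates an algebra without finite-dimensional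
representations -/
theorem cstar (A : Type) [CStarAlgebra A] [Nontrivial A] (G : Type) [Group G] (hG : HJI.Fol.Fol G)
    (u : G →* unitary A)
    (hu : ∀ d : ℕ, 0 < d → IsEmpty (Algebra.adjoin ℂ (Set.range fun g => ((u g : unitary A) : A)) →ₐ[ℂ]
      Matrix (Fin d) (Fin d) ℂ)) : dg A = ⊤ ∧ db A = ⊤ := by
  obtain ⟨K, i1, i2, i3, π, hK⟩ := exists_rep A
  let π' : A →L[ℂ] (K →L[ℂ] K) := LinearMap.mkContinuous
    { toFun := fun x => π x
      map_add' := fun x y => map_add π x y
      map_smul' := fun c x => map_smul π c x } 1 (fun x => by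
        rw [one_mul]; exact NonUnitalStarAlgHom.norm_apply_le π x)
  have hπ' : ∀ x, π' x = π x := fun _ => rfl
  have hinv : ∀ g, ((u g⁻¹ : unitary A) : A) = star ((u g : unitary A) : A) := by
    intro g
    rw [map_inv]
    rfl
  refine criterion A K π' (fun x y => map_mul π x y) G hG (fun g => ((u g : unitary A) : A) - 1) ?_ ?_ ?_ ?_ ?_
  · show ((u 1 : unitary A) : A) - 1 = 0
    rw [map_one, OneMemClass.coe_one, sub_self]
  · intro g h
    show ((u (g * h) : unitary A) : A) - 1 = _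
    rw [map_mul, Submonoid.coe_mul]
    noncomm_ring
  · refine ⟨2, fun g => ?_⟩
    have h1 : ‖((u g : unitary A) : A)‖ ≤ 1 := by
      rw [CStarRing.norm_coe_unitary]
    calc ‖((u g : unitary A) : A) - 1‖ ≤ ‖((u g : unitary A) : A)‖ + ‖(1 : A)‖ := norm_sub_le _ _
      _ ≤ 1 + 1 := add_le_add h1 (le_of_eq norm_one)
      _ = 2 := by norm_num
  · intro g
    rw [hπ', hπ', ← map_star, star_sub, star_one, hinv]
  · intro W hWfd hW
    by_contra hne
    haveI := hWfd
    obtain ⟨d, hd, ⟨ρ⟩⟩ := rep_of_invariant π (Set.range fun g => ((u g : unitary A) : A)) W hne (by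
      rintro _ ⟨g, rfl⟩ x hx
      have h1 := hW g x hx
      rw [hπ', map_sub, map_one] at h1
      have h2 : π ((u g : unitary A) : A) x = (π ((u g : unitary A) : A) - 1) x + x := by
        show _ = (π ((u g : unitary A) : A) x - x) + x
        rw [sub_add_cancel]
      rw [h2]
      exact W.add_mem h1 hx)
    exact (hu d hd).false ρ

/-- C*-algebras containing a pair of unitaries with a scalar commutator of infinite order -/
theorem rotation (A : Type) [CStarAlgebra A] [Nontrivial A] (u v : unitary A) (z : ℂ)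
    (hz : ∀ n : ℕ, 0 < n → z ^ n ≠ 1) (h : (u : A) * v = z • ((v : A) * u)) : dg A = ⊤ ∧ db A = ⊤ := by
  have hz0 : z ≠ 0 := by
    rintro rfl
    rw [zero_smul] at h
    have h1 : ‖((u * v : unitary A) : A)‖ = 1 := CStarRing.norm_coe_unitary _
    rw [Submonoid.coe_mul, h, norm_zero] at h1
    exact zero_ne_one h1
  have hS : ∀ x ∈ ({u, v} : Set (unitary A)), ∀ y ∈ ({u, v} : Set (unitary A)),
      ∃ t : ℂ, (x : A) * y = t • ((y : A) * x) := by
    rintro x (rfl | rfl) y (rfl | rfl)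
    · exact ⟨1, by rw [one_smul]⟩
    · exact ⟨z, h⟩
    · exact ⟨z⁻¹, by rw [h, smul_smul, inv_mul_cancel₀ hz0, one_smul]⟩
    · exact ⟨1, by rw [one_smul]⟩
  exact cstar A (Subgroup.closure {u, v}) (fol_scalar _ hS) (Subgroup.subtype _)
    (nfd_rotation u v z hz h _ (Subgroup.subset_closure (Or.inl rfl)) (Subgroup.subset_closure (Or.inr rfl)))

/-- C*-algebras containing infinitely many commuting pairs of unitaries with nontrivial scalar commutators -/
theorem pairs (A : Type) [CStarAlgebra A] [Nontrivial A] (u v : ℕ → unitary A) (z : ℕ → ℂ) (hz : ∀ k, z k ≠ 1)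
    (h : ∀ k, (u k : A) * v k = z k • ((v k : A) * u k))
    (hc : ∀ j k, j ≠ k → u j * u k = u k * u j ∧ u j * v k = v k * u j ∧ v j * v k = v k * v j) :
    dg A = ⊤ ∧ db A = ⊤ := by
  have hz0 : ∀ k, z k ≠ 0 := by
    intro k hk
    have h0 := h k
    rw [hk, zero_smul] at h0
    have h1 : ‖((u k * v k : unitary A) : A)‖ = 1 := CStarRing.norm_coe_unitary _
    rw [Submonoid.coe_mul, h0, norm_zero] at h1
    exact zero_ne_one h1
  have hco : ∀ x y : unitary A, x * y = y * x → ∃ t : ℂ, (x : A) * y = t • ((y : A) * x) := by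
    intro x y hxy
    refine ⟨1, ?_⟩
    rw [one_smul, ← Submonoid.coe_mul, ← Submonoid.coe_mul, hxy]
  have hS : ∀ x ∈ Set.range u ∪ Set.range v, ∀ y ∈ Set.range u ∪ Set.range v,
      ∃ t : ℂ, (x : A) * y = t • ((y : A) * x) := by
    rintro x (⟨j, rfl⟩ | ⟨j, rfl⟩) y (⟨k, rfl⟩ | ⟨k, rfl⟩)
    · rcases eq_or_ne j k with rfl | hjk
      · exact hco _ _ rfl
      · exact hco _ _ (hc j k hjk).1
    · rcases eq_or_ne j k with rfl | hjk
      · exact ⟨z j, h j⟩
      · exact hco _ _ (hc j k hjk).2.1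
    · rcases eq_or_ne j k with rfl | hjk
      · exact ⟨(z j)⁻¹, by rw [h, smul_smul, inv_mul_cancel₀ (hz0 j), one_smul]⟩
      · exact hco _ _ (hc k j hjk.symm).2.1.symm
    · rcases eq_or_ne j k with rfl | hjk
      · exact hco _ _ rfl
      · exact hco _ _ (hc j k hjk).2.2
  exact cstar A (Subgroup.closure (Set.range u ∪ Set.range v)) (fol_scalar _ hS) (Subgroup.subtype _)
    (nfd_pairs u v z hz h (fun j k hjk => (hc j k hjk).1) (fun j k hjk => (hc j k hjk).2.1) _
      (fun k => Subgroup.subset_closure (Or.inl ⟨k, rfl⟩)) (fun k => Subgroup.subset_closure (Or.inr ⟨k, rfl⟩)))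

end Pool.Agent.Y464.AG
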