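import Mathlib
import Pool.Agent.Y464.AG.Main

set_option autoImplicit false

/-! Algebras with unitaries whose powers tend to zero weakly in a representation. -/

namespace Pool.Agent.Y464.AG

open Filter Topology Polynomial Pool.Agent.Helper832.GS Pool.Agent.H724R3.N
open scoped ComplexOrder

lemma eval_zero_le (p : ℂ[X]) : ∃ z : ℂ, ‖z‖ = 1 ∧ ‖p.eval 0‖ ≤ ‖p.eval z‖ := by
  obtain ⟨z, hz1, hz2⟩ := Complex.exists_mem_frontier_isMaxOn_norm (f := fun z : ℂ => p.eval z)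
    (U := Metric.ball (0 : ℂ) 1) Metric.isBounded_ball ⟨0, Metric.mem_ball_self one_pos⟩
    p.differentiable.diffContOnCl
  refine ⟨z, ?_, ?_⟩
  · rw [frontier_ball (0 : ℂ) one_ne_zero, mem_sphere_zero_iff_norm] at hz1
    exact hz1
  · exact hz2 (subset_closure (Metric.mem_ball_self one_pos))

/-- a functional of norm one which vanishes on the powers of an element with full spectrum -/
theorem circle_state (B : Type) [NormedRing B] [NormedAlgebra ℂ B] [CompleteSpace B] [NormOneClass B] (u : B)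
    (h : ∀ z : ℂ, ‖z‖ = 1 → z ∈ spectrum ℂ u) :
    ∃ φ : B →L[ℂ] ℂ, ‖φ‖ ≤ 1 ∧ φ 1 = 1 ∧ ∀ n : ℕ, 0 < n → φ (u ^ n) = 0 := by
  let L : ℂ[X] →ₗ[ℂ] B := (aeval u).toLinearMap
  let E : ℂ[X] →ₗ[ℂ] ℂ := (aeval (0 : ℂ)).toLinearMap
  have hLE : ∀ p, ‖E p‖ ≤ ‖L p‖ := by
    intro p
    obtain ⟨z, hz1, hz2⟩ := eval_zero_le p
    have h1 : p.eval z ∈ spectrum ℂ (aeval u p) := spectrum.subset_polynomial_aeval u p ⟨z, h z hz1, rfl⟩
    have h2 := spectrum.norm_le_norm_of_mem h1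
    have h3 : E p = p.eval 0 := by
      show aeval (0 : ℂ) p = _
      rw [coe_aeval_eq_eval]
    rw [h3]
    exact hz2.trans h2
  have hker : LinearMap.ker L ≤ LinearMap.ker E := by
    intro p hp
    rw [LinearMap.mem_ker] at hp ⊢
    have := hLE p
    rw [hp, norm_zero] at this
    exact norm_le_zero_iff.1 this
  let g0 : LinearMap.range L →ₗ[ℂ] ℂ := ((LinearMap.ker L).liftQ E hker) ∘ₗ L.quotKerEquivRange.symm.toLinearMap
  have hg0 : ∀ p (hp : L p ∈ LinearMap.range L), g0 ⟨L p, hp⟩ = E p := by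
    intro p hp
    show ((LinearMap.ker L).liftQ E hker) (L.quotKerEquivRange.symm ⟨L p, hp⟩) = E p
    rw [LinearMap.quotKerEquivRange_symm_apply_image, Submodule.mkQ_apply, Submodule.liftQ_apply]
  let g : LinearMap.range L →L[ℂ] ℂ := g0.mkContinuous 1 (by
    rintro ⟨y, hy⟩
    obtain ⟨p, rfl⟩ := LinearMap.mem_range.1 hy
    rw [hg0 p hy, one_mul]
    exact hLE p)
  obtain ⟨φ, hφ1, hφ2⟩ := exists_extension_norm_eq (𝕜 := ℂ) (LinearMap.range L) g
  have hφL : ∀ p, φ (L p) = E p := by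
    intro p
    have h1 := hφ1 ⟨L p, LinearMap.mem_range_self L p⟩
    rw [h1]
    exact hg0 p _
  refine ⟨φ, ?_, ?_, ?_⟩
  · rw [hφ2]
    exact LinearMap.mkContinuous_norm_le _ zero_le_one _
  · have h1 := hφL 1
    have h2 : L 1 = 1 := map_one (aeval u)
    have h3 : E 1 = 1 := map_one (aeval (0 : ℂ))
    rwa [h2, h3] at h1
  · intro n hn
    have h1 := hφL (X ^ n)
    have h2 : L (X ^ n) = u ^ n := by
      show aeval u (X ^ n) = u ^ n
      rw [map_pow, aeval_X]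
    have h3 : E (X ^ n) = 0 := by
      show aeval (0 : ℂ) (X ^ n) = 0
      rw [map_pow, aeval_X, zero_pow hn.ne']
    rwa [h2, h3] at h1

section cstar

variable {B : Type} [CStarAlgebra B] [Nontrivial B]

/-- the GNS representation of a functional of norm one with `φ 1 = 1` -/
theorem gns_state (φ : B →L[ℂ] ℂ) (h1 : ‖φ‖ ≤ 1) (h2 : φ 1 = 1) :
    ∃ (K : Type) (_ : NormedAddCommGroup K) (_ : InnerProductSpace ℂ K) (_ : CompleteSpace K)
      (π : B →⋆ₐ[ℂ] (K →L[ℂ] K)) (e : B → K), Nontrivial K ∧ DenseRange e ∧ (∀ a b, π a (e b) = e (a * b)) ∧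
        (∀ a b, inner ℂ (e a) (e b) = φ (star a * b)) ∧ ∀ a, φ (star a) = star (φ a) := by
  let _ := CStarAlgebra.spectralOrder B
  have _ := CStarAlgebra.spectralOrderedRing B
  let f : B →ₚ[ℂ] ℂ := PositiveLinearMap.mk₀ φ.toLinearMap (fun x hx => by
    rw [Complex.le_def]
    refine ⟨?_, ?_⟩
    · exact Pool.Agent.Helper133.CD.J6a.CDst.state_re φ h1 h2 x hx
    · exact (Pool.Agent.Helper133.CD.J6a.CDst.state_im φ h1 h2 x (IsSelfAdjoint.of_nonneg hx)).symm)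
  have hf : ∀ x, f x = φ x := fun _ => rfl
  obtain ⟨K, i1, i2, i3, π, e, g1, g2, g3, g4⟩ := gns B f (by rw [hf, h2])
  refine ⟨K, i1, i2, i3, π, e, g1, g2, g3, fun a b => by rw [g4, hf], fun a => ?_⟩
  rw [← hf, ← hf, map_star]

theorem bessel (φ : B →L[ℂ] ℂ) (h1 : ‖φ‖ ≤ 1) (h2 : φ 1 = 1) (u : unitary B)
    (hn : ∀ n : ℕ, 0 < n → φ ((u : B) ^ n) = 0) (x : B) :
    Tendsto (fun n : ℕ => φ ((u : B) ^ n * x)) atTop (𝓝 0) := by
  obtain ⟨K, i1, i2, i3, π, e, g1, g2, g3, g4, g5⟩ := gns_state φ h1 h2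
  have hcoe : ∀ n : ℕ, (u : B) ^ n = ((u ^ n : unitary B) : B) := fun n => (SubmonoidClass.coe_pow _ _).symm
  have hin : ∀ n m : ℕ, inner ℂ (e (star ((u : B) ^ n))) (e (star ((u : B) ^ m))) = if n = m then (1 : ℂ) else 0 := by
    intro n m
    rw [g4, star_star]
    have e1 : (u : B) ^ n * star ((u : B) ^ m) = ((u ^ n * (u ^ m)⁻¹ : unitary B) : B) := by
      rw [hcoe, hcoe]
      rfl
    rw [e1]
    rcases lt_trichotomy n m with h | h | h
    · rw [if_neg h.ne]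
      obtain ⟨l, rfl⟩ := Nat.exists_eq_add_of_lt h
      have e2 : (u ^ n * (u ^ (n + l + 1))⁻¹ : unitary B) = (u ^ (l + 1))⁻¹ := by
        rw [add_assoc, pow_add, mul_inv_rev, ← mul_assoc]
        have : u ^ n * (u ^ (l + 1))⁻¹ = (u ^ (l + 1))⁻¹ * u ^ n := by
          have hc : Commute (u ^ n) (u ^ (l + 1))⁻¹ := ((Commute.refl u).pow_pow n (l + 1)).inv_right
          exact hc
        rw [this, mul_assoc, mul_inv_cancel, mul_one]
      rw [e2]
      have e3 : (((u ^ (l + 1))⁻¹ : unitary B) : B) = star ((u : B) ^ (l + 1)) := by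
        rw [hcoe]
        rfl
      rw [e3, g5, hn (l + 1) (by omega), star_zero]
    · rw [if_pos h, h, mul_inv_cancel]
      exact h2
    · rw [if_neg h.ne']
      obtain ⟨l, rfl⟩ := Nat.exists_eq_add_of_lt h
      have e2 : (u ^ (m + l + 1) * (u ^ m)⁻¹ : unitary B) = u ^ (l + 1) := by
        rw [add_assoc, add_comm m, pow_add, mul_assoc, mul_inv_cancel, mul_one]
      rw [e2, ← hcoe]
      exact hn (l + 1) (by omega)
  have hort : Orthonormal ℂ (fun n : ℕ => e (star ((u : B) ^ n))) := by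
    rw [orthonormal_iff_ite]
    exact hin
  have hs := (hort.inner_products_summable (x := e x)).tendsto_atTop_zero
  have hval : ∀ n : ℕ, inner ℂ (e (star ((u : B) ^ n))) (e x) = φ ((u : B) ^ n * x) := by
    intro n
    rw [g4, star_star]
  rw [tendsto_zero_iff_norm_tendsto_zero]
  have h3 := (Real.continuous_sqrt.tendsto 0).comp hs
  rw [Real.sqrt_zero] at h3
  refine h3.congr fun n => ?_
  show Real.sqrt (‖inner ℂ (e (star ((u : B) ^ n))) (e x)‖ ^ 2) = _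
  rw [Real.sqrt_sq (norm_nonneg _), hval]

theorem state_rep (φ : B →L[ℂ] ℂ) (h1 : ‖φ‖ ≤ 1) (h2 : φ 1 = 1) (u : unitary B)
    (h : ∀ x y : B, Tendsto (fun n : ℕ => φ (x * (u : B) ^ n * y)) atTop (𝓝 0)) :
    ∃ (K : Type) (_ : NormedAddCommGroup K) (_ : InnerProductSpace ℂ K) (_ : CompleteSpace K)
      (π : B →⋆ₐ[ℂ] (K →L[ℂ] K)), Nontrivial K ∧
        ∀ ξ η : K, Tendsto (fun n : ℕ => inner ℂ η (π ((u : B) ^ n) ξ)) atTop (𝓝 0) := by
  obtain ⟨K, i1, i2, i3, π, e, g1, g2, g3, g4, g5⟩ := gns_state φ h1 h2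
  refine ⟨K, i1, i2, i3, π, g1, fun ξ η => ?_⟩
  have hV : ∀ n : ℕ, ∀ ζ : K, ‖π ((u : B) ^ n) ζ‖ ≤ ‖ζ‖ := by
    intro n ζ
    have e1 : ‖π ((u : B) ^ n)‖ ≤ 1 := by
      refine (NonUnitalStarAlgHom.norm_apply_le π _).trans ?_
      rw [← SubmonoidClass.coe_pow, CStarRing.norm_coe_unitary]
    calc ‖π ((u : B) ^ n) ζ‖ ≤ ‖π ((u : B) ^ n)‖ * ‖ζ‖ := ContinuousLinearMap.le_opNorm _ _
      _ ≤ 1 * ‖ζ‖ := mul_le_mul_of_nonneg_right e1 (norm_nonneg _)
      _ = ‖ζ‖ := one_mul _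
  rw [Metric.tendsto_atTop]
  intro ε hε
  obtain ⟨a, ha⟩ := Metric.denseRange_iff.1 g2 η (ε / (3 * (‖ξ‖ + 1))) (by positivity)
  obtain ⟨b, hb⟩ := Metric.denseRange_iff.1 g2 ξ (ε / (3 * (‖e a‖ + 1))) (by positivity)
  obtain ⟨N, hN⟩ := (Metric.tendsto_atTop.1 (h (star a) b)) (ε / 3) (by positivity)
  refine ⟨N, fun n hn => ?_⟩
  have h3 := hN n hn
  rw [dist_zero_right] at h3 ⊢
  rw [dist_eq_norm] at ha hb
  have h4 : inner ℂ η (π ((u : B) ^ n) ξ) = inner ℂ (η - e a) (π ((u : B) ^ n) ξ) +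
      inner ℂ (e a) (π ((u : B) ^ n) (ξ - e b)) + φ (star a * (u : B) ^ n * b) := by
    rw [mul_assoc, ← g4, ← g3, map_sub, inner_sub_left, inner_sub_right]
    ring
  rw [h4]
  have h5 : ‖inner ℂ (η - e a) (π ((u : B) ^ n) ξ)‖ ≤ ε / 3 := by
    calc ‖inner ℂ (η - e a) (π ((u : B) ^ n) ξ)‖ ≤ ‖η - e a‖ * ‖π ((u : B) ^ n) ξ‖ := norm_inner_le_norm _ _
      _ ≤ (ε / (3 * (‖ξ‖ + 1))) * ‖ξ‖ := mul_le_mul ha.le (hV n ξ) (norm_nonneg _) (by positivity)
      _ ≤ ε / 3 := by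
        rw [div_mul_eq_mul_div, div_le_div_iff₀ (by positivity) (by norm_num)]
        nlinarith [norm_nonneg ξ]
  have h6 : ‖inner ℂ (e a) (π ((u : B) ^ n) (ξ - e b))‖ < ε / 3 := by
    calc ‖inner ℂ (e a) (π ((u : B) ^ n) (ξ - e b))‖ ≤ ‖e a‖ * ‖π ((u : B) ^ n) (ξ - e b)‖ := norm_inner_le_norm _ _
      _ ≤ ‖e a‖ * (ε / (3 * (‖e a‖ + 1))) :=
        mul_le_mul_of_nonneg_left ((hV n _).trans hb.le) (norm_nonneg _)
      _ < ε / 3 := by
        rw [mul_div_assoc', div_lt_div_iff₀ (by positivity) (by norm_num)]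
        nlinarith [norm_nonneg (e a)]
  calc _ ≤ ‖inner ℂ (η - e a) (π ((u : B) ^ n) ξ)‖ + ‖inner ℂ (e a) (π ((u : B) ^ n) (ξ - e b))‖ +
        ‖φ (star a * (u : B) ^ n * b)‖ := norm_add₃_le
    _ < ε := by linarith

end cstar

/-- **Criterion** for one element with bounded powers. -/
theorem weak_crit (A : Type) [NormedRing A] [NormedAlgebra ℂ A] [CompleteSpace A]
    (K : Type) [NormedAddCommGroup K] [InnerProductSpace ℂ K] [CompleteSpace K] [Nontrivial K]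
    (π : A →L[ℂ] (K →L[ℂ] K)) (hπ : ∀ x y, π (x * y) = π x * π y) (hπ1 : π 1 = 1) (w : Aˣ)
    (hb : ∃ C : ℝ, ∀ n : ℤ, ‖((w ^ n : Aˣ) : A)‖ ≤ C)
    (h : ∀ ξ η : K, Tendsto (fun n : ℕ => inner ℂ η (π ((w ^ n : Aˣ) : A) ξ)) atTop (𝓝 0)) :
    dg A = ⊤ ∧ db A = ⊤ ∧ (regB A).dh = ⊤ := by
  obtain ⟨s, b, -⟩ := exists_hilbertBasis ℂ K
  obtain ⟨J, U, F, hF⟩ := isFol_of_fol (G := Multiplicative ℤ) (HJI.Fol.fol_comm mul_comm)
  obtain ⟨C, hC⟩ := hb
  have hmain := main3 A taskFinal K s b π hπ (Multiplicative ℤ)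
    (fun g => ((w ^ (Multiplicative.toAdd g) : Aˣ) : A) - 1) ⟨?_, ?_, ?_⟩ J U F hF (fun T hT hc => ?_)
  · refine ⟨(dg_of_db hmain.1).1, hmain.1, hmain.2 1 one_mul mul_one ?_⟩
    rw [hπ1]
    exact one_ne_zero
  · show ((w ^ (0 : ℤ) : Aˣ) : A) - 1 = 0
    rw [zpow_zero, Units.val_one, sub_self]
  · intro g k
    show ((w ^ (Multiplicative.toAdd g + Multiplicative.toAdd k) : Aˣ) : A) - 1 = _
    rw [zpow_add, Units.val_mul]
    noncomm_ring
  · exact ⟨C + ‖(1 : A)‖, fun g => (norm_sub_le _ _).trans (add_le_add (hC _) le_rfl)⟩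
  · refine taskHSC K s b (fun n : ℕ => π ((w ^ n : Aˣ) : A)) (fun n : ℕ => π (((w ^ n)⁻¹ : Aˣ) : A)) ?_ ?_ h T hT ?_
    · intro n
      show π _ * π _ = 1
      rw [← hπ, ← Units.val_mul, inv_mul_cancel, Units.val_one, hπ1]
    · refine ⟨‖π‖ * C, fun n => ⟨?_, ?_⟩⟩
      · refine (π.le_opNorm _).trans (mul_le_mul_of_nonneg_left ?_ (norm_nonneg _))
        have := hC (n : ℤ)
        rwa [zpow_natCast] at this
      · refine (π.le_opNorm _).trans (mul_le_mul_of_nonneg_left ?_ (norm_nonneg _))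
        have := hC (-(n : ℤ))
        rwa [zpow_neg, zpow_natCast] at this
    · intro n
      have h1 := hc (Multiplicative.ofAdd (n : ℤ))
      have h2 : ((w ^ (Multiplicative.toAdd (Multiplicative.ofAdd (n : ℤ))) : Aˣ) : A) = ((w ^ n : Aˣ) : A) := by
        rw [toAdd_ofAdd, zpow_natCast]
      rw [h2, map_sub, hπ1, sub_mul, mul_sub, one_mul, mul_one] at h1
      exact sub_left_injective h1

end Pool.Agent.Y464.AG
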