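import Mathlib
import Pool.Agent.Y464.AG.Haar

set_option autoImplicit false

/-! Tracial states with Haar unitaries, central unitaries with full spectrum, algebras of continuous functions,
commutative Banach algebras. -/

namespace Pool.Agent.Y464.AG

open Filter Topology Pool.Agent.Helper832.GS Pool.Agent.H724R3.N

theorem of_state (A : Type) [CStarAlgebra A] [Nontrivial A] (φ : A →L[ℂ] ℂ) (h1 : ‖φ‖ ≤ 1) (h2 : φ 1 = 1)
    (u : unitary A) (h : ∀ x y : A, Tendsto (fun n : ℕ => φ (x * (u : A) ^ n * y)) atTop (𝓝 0)) :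
    dg A = ⊤ ∧ db A = ⊤ ∧ (regB A).dh = ⊤ := by
  obtain ⟨K, i1, i2, i3, π, hK, hlim⟩ := state_rep φ h1 h2 u h
  let π' : A →L[ℂ] (K →L[ℂ] K) := LinearMap.mkContinuous
    { toFun := fun x => π x
      map_add' := fun x y => map_add π x y
      map_smul' := fun c x => map_smul π c x } 1 (fun x => by
        rw [one_mul]; exact NonUnitalStarAlgHom.norm_apply_le π x)
  have hw : ∀ n : ℤ, ((((Unitary.toUnits u) ^ n : Aˣ)) : A) = ((u ^ n : unitary A) : A) := by
    intro n
    rw [← map_zpow]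
    rfl
  refine weak_crit A K π' (fun x y => map_mul π x y) (map_one π) (Unitary.toUnits u) ⟨1, fun n => ?_⟩
    (fun ξ η => ?_)
  · rw [hw, CStarRing.norm_coe_unitary]
  · refine (hlim ξ η).congr fun n => ?_
    have h3 := hw (n : ℤ)
    rw [zpow_natCast, zpow_natCast] at h3
    rw [h3, SubmonoidClass.coe_pow]
    rfl

/-- a tracial state and a unitary with vanishing moments -/
theorem tracial (A : Type) [CStarAlgebra A] [Nontrivial A] (τ : A →L[ℂ] ℂ) (h1 : ‖τ‖ ≤ 1) (h2 : τ 1 = 1)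
    (h3 : ∀ x y, τ (x * y) = τ (y * x)) (u : unitary A) (hu : ∀ n : ℕ, 0 < n → τ ((u : A) ^ n) = 0) :
    dg A = ⊤ ∧ db A = ⊤ ∧ (regB A).dh = ⊤ := by
  refine of_state A τ h1 h2 u fun x y => ?_
  refine (bessel τ h1 h2 u hu (y * x)).congr fun n => ?_
  rw [mul_assoc x, h3 x, mul_assoc]

/-- a central unitary with full spectrum -/
theorem central (A : Type) [CStarAlgebra A] [Nontrivial A] (u : unitary A) (h : ∀ x : A, (u : A) * x = x * u)
    (hs : ∀ z : ℂ, ‖z‖ = 1 → z ∈ spectrum ℂ (u : A)) : dg A = ⊤ ∧ db A = ⊤ ∧ (regB A).dh = ⊤ := by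
  obtain ⟨φ, h1, h2, h3⟩ := circle_state A (u : A) hs
  refine of_state A φ h1 h2 u fun x y => ?_
  refine (bessel φ h1 h2 u h3 (x * y)).congr fun n => ?_
  have hc : Commute ((u : A) ^ n) x := (show Commute (u : A) x from h x).pow_left n
  rw [← mul_assoc, hc.eq]

/-- algebras of continuous functions with values in a C*-algebra -/
theorem functions (X : Type) [TopologicalSpace X] [CompactSpace X] [T2Space X] (f : C(X, unitInterval))
    (hf : Function.Surjective f) (B : Type) [CStarAlgebra B] [Nontrivial B] :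
    dg C(X, B) = ⊤ ∧ db C(X, B) = ⊤ ∧ (regB C(X, B)).dh = ⊤ := by
  obtain ⟨x0, -⟩ := hf 0
  haveI : Nonempty X := ⟨x0⟩
  haveI : Nontrivial C(X, B) := inferInstance
  let c : C(X, ℂ) := ⟨fun x => Complex.exp (2 * Real.pi * Complex.I * ((f x : ℝ) : ℂ)), by fun_prop⟩
  have hc : ∀ x, c x = Complex.exp (2 * Real.pi * Complex.I * ((f x : ℝ) : ℂ)) := fun _ => rfl
  have hcn : ∀ x, ‖c x‖ = 1 := by
    intro x
    rw [hc, show 2 * Real.pi * Complex.I * ((f x : ℝ) : ℂ) = ((2 * Real.pi * (f x : ℝ) : ℝ) : ℂ) * Complex.I by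
      push_cast; ring]
    exact Complex.norm_exp_ofReal_mul_I _
  let w : C(X, B) := ⟨fun x => algebraMap ℂ B (c x), (continuous_algebraMap ℂ B).comp c.continuous⟩
  have hw : ∀ x, w x = algebraMap ℂ B (c x) := fun _ => rfl
  have hcc : ∀ x, c x * star (c x) = 1 := by
    intro x
    have h4 : c x * (starRingEnd ℂ) (c x) = (‖c x‖ : ℂ) ^ 2 := Complex.mul_conj' _
    rw [show star (c x) = (starRingEnd ℂ) (c x) from rfl, h4, hcn]
    norm_num
  have hstar : ∀ x, star (w x) = algebraMap ℂ B (star (c x)) := by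
    intro x
    rw [hw, algebraMap_star_comm]
  have hmem : w ∈ unitary C(X, B) := by
    rw [Unitary.mem_iff]
    constructor
    · ext x
      show star (w x) * w x = 1
      rw [hstar, hw, ← map_mul, mul_comm, hcc, map_one]
    · ext x
      show w x * star (w x) = 1
      rw [hstar, hw, ← map_mul, hcc, map_one]
  refine central C(X, B) ⟨w, hmem⟩ (fun g => ?_) (fun z hz => ?_)
  · ext x
    show w x * g x = g x * w x
    rw [hw]
    exact Algebra.commutes _ _
  · rw [spectrum.mem_iff]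
    intro hunit
    obtain ⟨x, hx⟩ : ∃ x, c x = z := by
      obtain ⟨θ, hθ⟩ : ∃ θ : ℝ, Complex.exp (θ * Complex.I) = z := by
        refine ⟨Complex.arg z, ?_⟩
        have := Complex.norm_mul_exp_arg_mul_I z
        rwa [hz, Complex.ofReal_one, one_mul] at this
      obtain ⟨x, hx⟩ := hf ⟨Int.fract (θ / (2 * Real.pi)), Int.fract_nonneg _, (Int.fract_lt_one _).le⟩
      refine ⟨x, ?_⟩
      rw [hc, hx, ← hθ]
      have h5 : Int.fract (θ / (2 * Real.pi)) = θ / (2 * Real.pi) - ⌊θ / (2 * Real.pi)⌋ := rfl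
      have h6 : 2 * Real.pi * Complex.I * ((Int.fract (θ / (2 * Real.pi)) : ℝ) : ℂ) =
          θ * Complex.I - (⌊θ / (2 * Real.pi)⌋ : ℤ) * (2 * Real.pi * Complex.I) := by
        rw [h5]
        have h7 : (Real.pi : ℂ) ≠ 0 := by exact_mod_cast Real.pi_ne_zero
        push_cast
        field_simp
      show Complex.exp (2 * Real.pi * Complex.I * ((Int.fract (θ / (2 * Real.pi)) : ℝ) : ℂ)) = _
      rw [h6, Complex.exp_sub, Complex.exp_int_mul_two_pi_mul_I, div_one]
    obtain ⟨v, hv⟩ := hunit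
    have h1 : (v : C(X, B)) * (v⁻¹ : (C(X, B))ˣ) = 1 := v.mul_inv
    have h2 := congrArg (fun g : C(X, B) => g x) h1
    have h3 : (v : C(X, B)) x = 0 := by
      rw [hv]
      show algebraMap ℂ B z - w x = 0
      rw [hw, hx, sub_self]
    have h4 : (v : C(X, B)) x * ((v⁻¹ : (C(X, B))ˣ) : C(X, B)) x = 1 := h2
    rw [h3, zero_mul] at h4
    exact zero_ne_one h4

/-- commutative Banach algebras containing an element with bounded powers and full spectrum -/
theorem commutative (A : Type) [NormedCommRing A] [NormedAlgebra ℂ A] [CompleteSpace A] [NormOneClass A] (w : Aˣ)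
    (hb : ∃ C : ℝ, ∀ n : ℤ, ‖((w ^ n : Aˣ) : A)‖ ≤ C) (hs : ∀ z : ℂ, ‖z‖ = 1 → z ∈ spectrum ℂ (w : A)) :
    dg A = ⊤ ∧ db A = ⊤ ∧ (regB A).dh = ⊤ := by
  haveI : Nontrivial A := NormOneClass.nontrivial
  let Γ : A →ₐ[ℂ] C(WeakDual.characterSpace ℂ A, ℂ) := WeakDual.gelfandTransform ℂ A
  have hΓ : ∀ a χ, Γ a χ = χ a := fun _ _ => rfl
  have hΓn : ∀ a, ‖Γ a‖ ≤ ‖a‖ := by
    intro a
    rw [ContinuousMap.norm_le _ (norm_nonneg a)]
    intro χ
    rw [hΓ]
    exact AlgHom.norm_apply_le_self χ a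
  haveI : Nonempty (WeakDual.characterSpace ℂ A) := inferInstance
  obtain ⟨C, hC⟩ := hb
  have hone : ∀ χ : WeakDual.characterSpace ℂ A, ‖χ (w : A)‖ = 1 := by
    intro χ
    have h1 : ∀ n : ℕ, ‖χ (w : A)‖ ^ n ≤ C := by
      intro n
      have h2 := AlgHom.norm_apply_le_self χ (((w ^ (n : ℤ) : Aˣ)) : A)
      rw [zpow_natCast, Units.val_pow_eq_pow_val, map_pow, norm_pow] at h2
      refine h2.trans ?_
      have := hC n
      rwa [zpow_natCast, Units.val_pow_eq_pow_val] at this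
    have h1' : ∀ n : ℕ, ‖χ ((w⁻¹ : Aˣ) : A)‖ ^ n ≤ C := by
      intro n
      have h2 := AlgHom.norm_apply_le_self χ (((w⁻¹ ^ n : Aˣ)) : A)
      rw [Units.val_pow_eq_pow_val, map_pow, norm_pow] at h2
      refine h2.trans ?_
      have := hC (-(n : ℤ))
      rwa [zpow_neg, zpow_natCast, ← inv_pow, Units.val_pow_eq_pow_val] at this
    have hprod : ‖χ (w : A)‖ * ‖χ ((w⁻¹ : Aˣ) : A)‖ = 1 := by
      rw [← norm_mul, ← map_mul, ← Units.val_mul, mul_inv_cancel, Units.val_one, map_one, norm_one]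
    have hle : ∀ r : ℝ, (∀ n : ℕ, r ^ n ≤ C) → r ≤ 1 := by
      intro r hr
      by_contra hcon
      push Not at hcon
      obtain ⟨n, hn⟩ := pow_unbounded_of_one_lt C hcon
      exact absurd (hr n) (not_le.2 hn)
    have h3 := hle _ h1
    have h4 := hle _ h1'
    have h5 : 0 ≤ ‖χ (w : A)‖ := norm_nonneg _
    have h6 : 0 ≤ ‖χ ((w⁻¹ : Aˣ) : A)‖ := norm_nonneg _
    nlinarith
  have hmem : Γ (w : A) ∈ unitary C(WeakDual.characterSpace ℂ A, ℂ) := by
    have h4 : ∀ χ : WeakDual.characterSpace ℂ A, χ (w : A) * (starRingEnd ℂ) (χ (w : A)) = 1 := by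
      intro χ
      rw [Complex.mul_conj', hone]
      norm_num
    rw [Unitary.mem_iff]
    constructor
    · ext χ
      show (starRingEnd ℂ) (χ (w : A)) * χ (w : A) = 1
      rw [mul_comm, h4]
    · ext χ
      exact h4 χ
  obtain ⟨φ, h1, h2, h3⟩ := circle_state C(WeakDual.characterSpace ℂ A, ℂ) (Γ (w : A)) (by
    intro z hz
    have h5 : spectrum ℂ (Γ (w : A)) = spectrum ℂ (w : A) := spectrum.gelfandTransform_eq (w : A)
    rw [h5]
    exact hs z hz)
  obtain ⟨K, i1, i2, i3, π, hK, hlim⟩ := state_rep φ h1 h2 ⟨Γ (w : A), hmem⟩ (fun x y => by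
    refine (bessel φ h1 h2 ⟨Γ (w : A), hmem⟩ h3 (x * y)).congr fun n => ?_
    rw [← mul_assoc, mul_comm _ x])
  let π' : A →L[ℂ] (K →L[ℂ] K) := LinearMap.mkContinuous
    { toFun := fun x => π (Γ x)
      map_add' := fun x y => by rw [map_add, map_add]
      map_smul' := fun c x => by rw [map_smul, map_smul]; rfl } 1 (fun x => by
        rw [one_mul]; exact (NonUnitalStarAlgHom.norm_apply_le π _).trans (hΓn x))
  have hπ' : ∀ x, π' x = π (Γ x) := fun _ => rfl
  refine weak_crit A K π' (fun x y => by rw [hπ', hπ', hπ', map_mul, map_mul]) (by rw [hπ', map_one, map_one]) w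
    ⟨C, hC⟩ (fun ξ η => ?_)
  refine (hlim ξ η).congr fun n => ?_
  rw [hπ', Units.val_pow_eq_pow_val, map_pow Γ]

end Pool.Agent.Y464.AG
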