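import Mathlib
import Pool.Agent.Y464.AG.Main

set_option autoImplicit false

/-! C*-algebras containing isometries with the Cuntz relations. -/

namespace Pool.Agent.Y464.AG

open Filter Topology Pool.Agent.Helper832.GS

variable {A : Type} [CStarAlgebra A] {n : ℕ} [NeZero n]

/-- the canonical endomorphism -/
noncomputable def Phi (S : ZMod n → A) (x : A) : A := ∑ i, S i * x * star (S i)

section

variable {S : ZMod n → A} (h1 : ∀ i j, star (S i) * S j = if i = j then 1 else 0)

include h1

lemma Phi_left (x : A) (i : ZMod n) : Phi S x * S i = S i * x := by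
  unfold Phi
  rw [Finset.sum_mul]
  have : ∀ j ∈ Finset.univ, S j * x * star (S j) * S i = if j = i then S i * x else 0 := by
    intro j _
    rw [mul_assoc, h1]
    by_cases h : j = i
    · rw [if_pos h, if_pos h, h, mul_one]
    · rw [if_neg h, if_neg h, mul_zero]
  rw [Finset.sum_congr rfl this, Finset.sum_ite_eq']
  simp

lemma Phi_right (x : A) (i : ZMod n) : star (S i) * Phi S x = x * star (S i) := by
  unfold Phi
  rw [Finset.mul_sum]
  have : ∀ j ∈ Finset.univ, star (S i) * (S j * x * star (S j)) = if j = i then x * star (S i) else 0 := by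
    intro j _
    rw [← mul_assoc, ← mul_assoc, h1]
    by_cases h : j = i
    · rw [if_pos h, if_pos h.symm, h, one_mul]
    · rw [if_neg h, if_neg (fun h' => h h'.symm), zero_mul, zero_mul]
  rw [Finset.sum_congr rfl this, Finset.sum_ite_eq']
  simp

lemma Phi_mul (x y : A) : Phi S (x * y) = Phi S x * Phi S y := by
  conv_rhs => rw [Phi.eq_def S y]
  rw [Finset.mul_sum]
  unfold Phi
  apply Finset.sum_congr rfl
  intro i _
  have h2 := Phi_left h1 x i
  calc S i * (x * y) * star (S i) = (S i * x) * y * star (S i) := by rw [mul_assoc (S i) x y]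
    _ = (Phi S x * S i) * y * star (S i) := by rw [h2]
    _ = Phi S x * (S i * y * star (S i)) := by simp only [mul_assoc]

lemma Phi_comm (x : A) (i j : ZMod n) : Phi S x * (S i * star (S j)) = (S i * star (S j)) * Phi S x := by
  rw [← mul_assoc, Phi_left h1, mul_assoc, mul_assoc, Phi_right h1]

end

lemma Phi_star (S : ZMod n → A) (x : A) : Phi S (star x) = star (Phi S x) := by
  unfold Phi
  rw [star_sum]
  apply Finset.sum_congr rfl
  intro i _
  rw [star_mul, star_mul, star_star, mul_assoc]

lemma Phi_smul (S : ZMod n → A) (c : ℂ) (x : A) : Phi S (c • x) = c • Phi S x := by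
  unfold Phi
  rw [Finset.smul_sum]
  apply Finset.sum_congr rfl
  intro i _
  rw [mul_smul_comm, smul_mul_assoc]

/-- **Cuntz relations.** -/
theorem cuntz [Nontrivial A] (hn : 2 ≤ n) (S : ZMod n → A) (h1 : ∀ i j, star (S i) * S j = if i = j then 1 else 0)
    (h2 : ∑ i, S i * star (S i) = 1) : dg A = ⊤ ∧ db A = ⊤ := by
  have hone : Phi S (1 : A) = 1 := by
    unfold Phi
    simp only [mul_one]
    exact h2
  obtain ⟨χ, hχ⟩ : ∃ χ : AddChar (ZMod n) ℂ, χ = ZMod.stdAddChar := ⟨_, rfl⟩
  have hχ1 : χ 1 ≠ 1 := by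
    intro h
    have h3 : (ZMod.stdAddChar : AddChar (ZMod n) ℂ) (1 : ZMod n) =
        (ZMod.stdAddChar : AddChar (ZMod n) ℂ) (0 : ZMod n) := by
      rw [← hχ, h, AddChar.map_zero_eq_one]
    have h4 := ZMod.injective_stdAddChar h3
    haveI : Fact (1 < n) := ⟨by omega⟩
    exact one_ne_zero h4
  have hχn : ∀ i, χ i * star (χ i) = 1 := by
    intro i
    have h3 : ‖χ i‖ = 1 := by rw [AddChar.norm_apply]
    have h4 : χ i * (starRingEnd ℂ) (χ i) = (‖χ i‖ : ℂ) ^ 2 := Complex.mul_conj' _
    rw [show star (χ i) = (starRingEnd ℂ) (χ i) from rfl, h4, h3]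
    norm_num
  obtain ⟨u0, hu0⟩ : ∃ u0 : A, u0 = ∑ i, χ i • (S i * star (S i)) := ⟨_, rfl⟩
  obtain ⟨v0, hv0⟩ : ∃ v0 : A, v0 = ∑ i, S (i + 1) * star (S i) := ⟨_, rfl⟩
  have hE : ∀ i j k l : ZMod n, (S i * star (S j)) * (S k * star (S l)) =
      if j = k then S i * star (S l) else 0 := by
    intro i j k l
    have : (S i * star (S j)) * (S k * star (S l)) = S i * (star (S j) * S k) * star (S l) := by
      simp only [mul_assoc]
    rw [this, h1]
    by_cases h : j = k
    · rw [if_pos h, if_pos h, mul_one]
    · rw [if_neg h, if_neg h, mul_zero, zero_mul]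
  have hus : star u0 = ∑ i, star (χ i) • (S i * star (S i)) := by
    rw [hu0, star_sum]
    apply Finset.sum_congr rfl
    intro i _
    rw [star_smul, star_mul, star_star]
  have hvs : star v0 = ∑ i, S i * star (S (i + 1)) := by
    rw [hv0, star_sum]
    apply Finset.sum_congr rfl
    intro i _
    rw [star_mul, star_star]
  have hu1 : u0 * star u0 = 1 := by
    rw [hus, hu0, Finset.sum_mul_sum, ← h2]
    apply Finset.sum_congr rfl
    intro i _
    have : ∀ j ∈ Finset.univ, χ i • (S i * star (S i)) * star (χ j) • (S j * star (S j)) =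
        if j = i then S i * star (S i) else 0 := by
      intro j _
      rw [smul_mul_smul_comm, hE]
      by_cases h : j = i
      · rw [if_pos h, if_pos h.symm, h, hχn, one_smul]
      · rw [if_neg h, if_neg (fun h' => h h'.symm), smul_zero]
    rw [Finset.sum_congr rfl this, Finset.sum_ite_eq']
    simp
  have hu2 : star u0 * u0 = 1 := by
    rw [hus, hu0, Finset.sum_mul_sum, ← h2]
    apply Finset.sum_congr rfl
    intro i _
    have : ∀ j ∈ Finset.univ, star (χ i) • (S i * star (S i)) * χ j • (S j * star (S j)) =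
        if j = i then S i * star (S i) else 0 := by
      intro j _
      rw [smul_mul_smul_comm, hE]
      by_cases h : j = i
      · rw [if_pos h, if_pos h.symm, h, mul_comm, hχn, one_smul]
      · rw [if_neg h, if_neg (fun h' => h h'.symm), smul_zero]
    rw [Finset.sum_congr rfl this, Finset.sum_ite_eq']
    simp
  have hv1 : v0 * star v0 = 1 := by
    have hre : ∑ i, S (i + 1) * star (S (i + 1)) = 1 := by
      rw [← h2]
      exact Equiv.sum_comp (Equiv.addRight (1 : ZMod n)) (fun i => S i * star (S i))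
    rw [hvs, hv0, Finset.sum_mul_sum, ← hre]
    apply Finset.sum_congr rfl
    intro i _
    have : ∀ j ∈ Finset.univ, S (i + 1) * star (S i) * (S j * star (S (j + 1))) =
        if j = i then S (i + 1) * star (S (i + 1)) else 0 := by
      intro j _
      rw [hE]
      by_cases h : j = i
      · rw [if_pos h, if_pos h.symm, h]
      · rw [if_neg h, if_neg (fun h' => h h'.symm)]
    rw [Finset.sum_congr rfl this, Finset.sum_ite_eq']
    simp
  have hv2 : star v0 * v0 = 1 := by
    rw [hvs, hv0, Finset.sum_mul_sum, ← h2]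
    apply Finset.sum_congr rfl
    intro i _
    have : ∀ j ∈ Finset.univ, S i * star (S (i + 1)) * (S (j + 1) * star (S j)) =
        if j = i then S i * star (S i) else 0 := by
      intro j _
      rw [hE]
      by_cases h : j = i
      · rw [if_pos h, if_pos (by rw [h]), h]
      · rw [if_neg h, if_neg (fun h' => h (add_right_cancel h').symm)]
    rw [Finset.sum_congr rfl this, Finset.sum_ite_eq']
    simp
  have huv : u0 * v0 = χ 1 • (v0 * u0) := by
    rw [hu0, hv0, Finset.sum_mul_sum, Finset.sum_mul_sum, Finset.smul_sum, Finset.sum_comm]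
    apply Finset.sum_congr rfl
    intro i _
    have e1 : ∀ j ∈ Finset.univ, χ j • (S j * star (S j)) * (S (i + 1) * star (S i)) =
        if j = i + 1 then χ (i + 1) • (S (i + 1) * star (S i)) else 0 := by
      intro j _
      rw [smul_mul_assoc, hE]
      by_cases h : j = i + 1
      · rw [if_pos h, if_pos h, h]
      · rw [if_neg h, if_neg h, smul_zero]
    have e2 : ∀ j ∈ Finset.univ, S (i + 1) * star (S i) * χ j • (S j * star (S j)) =
        if j = i then χ i • (S (i + 1) * star (S i)) else 0 := by
      intro j _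
      rw [mul_smul_comm, hE]
      by_cases h : j = i
      · rw [if_pos h, if_pos h.symm, h]
      · rw [if_neg h, if_neg (fun h' => h h'.symm), smul_zero]
    rw [Finset.sum_congr rfl e1, Finset.sum_congr rfl e2, Finset.sum_ite_eq', Finset.sum_ite_eq']
    simp only [Finset.mem_univ, if_true]
    rw [AddChar.map_add_eq_mul, mul_comm, mul_smul]
  have hcu : ∀ x, u0 * Phi S x = Phi S x * u0 := by
    intro x
    rw [hu0, Finset.sum_mul, Finset.mul_sum]
    apply Finset.sum_congr rfl
    intro i _
    rw [smul_mul_assoc, mul_smul_comm, Phi_comm h1]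
  have hcv : ∀ x, v0 * Phi S x = Phi S x * v0 := by
    intro x
    rw [hv0, Finset.sum_mul, Finset.mul_sum]
    apply Finset.sum_congr rfl
    intro i _
    rw [Phi_comm h1]
  -- iterates
  have hitm : ∀ k x y, (Phi S)^[k] (x * y) = (Phi S)^[k] x * (Phi S)^[k] y := by
    intro k
    induction k with
    | zero => intro x y; rfl
    | succ k ih =>
      intro x y
      rw [Function.iterate_succ_apply', Function.iterate_succ_apply', Function.iterate_succ_apply', ih, Phi_mul h1]
  have hits : ∀ k x, (Phi S)^[k] (star x) = star ((Phi S)^[k] x) := by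
    intro k
    induction k with
    | zero => intro x; rfl
    | succ k ih =>
      intro x
      rw [Function.iterate_succ_apply', Function.iterate_succ_apply', ih, Phi_star]
  have hitc : ∀ k (c : ℂ) x, (Phi S)^[k] (c • x) = c • (Phi S)^[k] x := by
    intro k
    induction k with
    | zero => intro c x; rfl
    | succ k ih =>
      intro c x
      rw [Function.iterate_succ_apply', Function.iterate_succ_apply', ih, Phi_smul]
  have hit1 : ∀ k, (Phi S)^[k] (1 : A) = 1 := by
    intro k
    induction k with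
    | zero => rfl
    | succ k ih => rw [Function.iterate_succ_apply', ih, hone]
  have hmem : ∀ k x, x * star x = 1 → star x * x = 1 → (Phi S)^[k] x ∈ unitary A := by
    intro k x e1 e2
    rw [Unitary.mem_iff]
    constructor
    · rw [← hits, ← hitm, e2, hit1]
    · rw [← hits, ← hitm, e1, hit1]
  have hlt : ∀ p w : A, (∀ x, p * Phi S x = Phi S x * p) → ∀ j k, j < k →
      (Phi S)^[j] p * (Phi S)^[k] w = (Phi S)^[k] w * (Phi S)^[j] p := by
    intro p w hp j k hjk
    obtain ⟨l, rfl⟩ := Nat.exists_eq_add_of_lt hjk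
    have e1 : (Phi S)^[j + l + 1] w = (Phi S)^[j] (Phi S ((Phi S)^[l] w)) := by
      rw [add_assoc, Function.iterate_add_apply, Function.iterate_succ_apply']
    rw [e1, ← hitm, ← hitm, hp]
  have hne : ∀ p w : A, (∀ x, p * Phi S x = Phi S x * p) → (∀ x, w * Phi S x = Phi S x * w) → ∀ j k, j ≠ k →
      (Phi S)^[j] p * (Phi S)^[k] w = (Phi S)^[k] w * (Phi S)^[j] p := by
    intro p w hp hw j k hjk
    rcases lt_or_gt_of_ne hjk with h | h
    · exact hlt p w hp j k h
    · exact (hlt w p hw k j h).symm
  refine pairs A (fun k => ⟨(Phi S)^[k] u0, hmem k u0 hu1 hu2⟩) (fun k => ⟨(Phi S)^[k] v0, hmem k v0 hv1 hv2⟩)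
    (fun _ => χ 1) (fun _ => hχ1) (fun k => ?_) (fun j k hjk => ⟨?_, ?_, ?_⟩)
  · show (Phi S)^[k] u0 * (Phi S)^[k] v0 = χ 1 • ((Phi S)^[k] v0 * (Phi S)^[k] u0)
    rw [← hitm, huv, hitc, hitm]
  · exact Subtype.ext (hne u0 u0 hcu hcu j k hjk)
  · exact Subtype.ext (hne u0 v0 hcu hcv j k hjk)
  · exact Subtype.ext (hne v0 v0 hcv hcv j k hjk)

end Pool.Agent.Y464.AG
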